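import Pool.Agent.Q160.TD.Digits

/-!
The chase: bi-Lipschitz images of `K` meet the adapted Cantor set.
-/

set_option autoImplicit false

namespace Pool.Agent.Q160.TD

open Set Filter Topology Metric

/-- the pair `K`, `p` is adapted -/
structure Adapted (K : Set ℝ) (p : Par) : Prop where
  cpt : IsCompact K
  move : ∀ j : ℕ, ∀ k ∈ K, ∃ k' ∈ K, |k' - k| ≤ p.r j / (2 * ((j : ℝ) + 1)) ∧
    p.c j * ((j : ℝ) + 1) ≤ |k' - k|

lemma exists_adapted {K : Set ℝ} (hc : IsCompact K)
    (hp : ∀ x ∈ K, ∀ ε : ℝ, 0 < ε → ∃ y ∈ K, y ≠ x ∧ |y - x| < ε) : ∃ p : Par, Adapted K p := by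
  obtain ⟨ρ, hρ⟩ := exists_rho hc hp
  obtain ⟨p, hpc⟩ := exists_par ρ fun s hs => (hρ s hs).1
  refine ⟨p, hc, ?_⟩
  intro j k hk
  have hr := p.r0 j
  obtain ⟨k', hk', h1, h2⟩ := (hρ (p.r j / (2 * ((j : ℝ) + 1))) (by positivity)).2 k hk
  refine ⟨k', hk', h1, ?_⟩
  rw [hpc, div_mul_cancel₀ _ (by positivity)]
  exact h2

/-- the chase -/
theorem chase {K : Set ℝ} {p : Par} (hA : Adapted K p) {g : ℝ → ℝ} {L : ℝ} {j₀ : ℕ}
    (hL : L ≤ (j₀ : ℝ) + 1) {x₀ : ℝ} (hx₀ : x₀ ∈ K) {b₀ : ℕ → Bool}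
    (h1 : p.ps b₀ j₀ + p.r j₀ ≤ g x₀) (h2 : g x₀ ≤ p.ps b₀ j₀ + p.l j₀ - p.r j₀)
    (hg : ∀ x ∈ K, ∀ y ∈ K, |x - x₀| ≤ p.r j₀ → |y - x₀| ≤ p.r j₀ →
      |g x - g y| ≤ L * |x - y| ∧ |x - y| ≤ L * |g x - g y|) :
    ∃ x ∈ K, |x - x₀| ≤ p.r j₀ ∧ g x ∈ p.C := by
  have key : ∀ n : ℕ, ∃ x ∈ K, |x - x₀| ≤ p.r j₀ - p.r (j₀ + n) ∧ ∃ b : ℕ → Bool,
      p.ps b (j₀ + n) + p.r (j₀ + n) ≤ g x ∧
        g x ≤ p.ps b (j₀ + n) + p.l (j₀ + n) - p.r (j₀ + n) := by
    intro n
    induction n with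
    | zero => exact ⟨x₀, hx₀, by simp, b₀, h1, h2⟩
    | succ n ih =>
      obtain ⟨x, hx, hxx, b, hb1, hb2⟩ := ih
      set j := j₀ + n with hj
      have hjr : (0 : ℝ) < (j : ℝ) + 1 := by positivity
      have hLj : L ≤ (j : ℝ) + 1 := by
        refine hL.trans ?_
        rw [hj]
        push_cast
        linarith [(Nat.cast_nonneg n : (0 : ℝ) ≤ n)]
      obtain ⟨x', hx', m1, m2⟩ := hA.move j x hx
      have hr := p.r0 j
      have hr1 := p.r0 (j + 1)
      have hrh := p.rhalf j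
      have hm1 : |x' - x| ≤ p.r j / 2 := by
        refine m1.trans ?_
        rw [← div_div]
        apply div_le_self (by positivity)
        linarith [(Nat.cast_nonneg j : (0 : ℝ) ≤ j)]
      have hx'x₀ : |x' - x₀| ≤ p.r j₀ - p.r j / 2 := by
        have := abs_sub_le x' x x₀
        linarith
      have hg1 := hg x' hx' x hx (by linarith) (by linarith)
      have hc := p.gap j
      have hc0 : 0 ≤ p.c j := by
        have := p.half j
        linarith
      have g1 : |g x' - g x| ≤ p.r j / 2 := by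
        refine hg1.1.trans ?_
        calc L * |x' - x| ≤ ((j : ℝ) + 1) * (p.r j / (2 * ((j : ℝ) + 1))) := by
              gcongr
          _ = p.r j / 2 := by field_simp
      have g2 : p.c j ≤ |g x' - g x| := by
        have h3 : p.c j * ((j : ℝ) + 1) ≤ ((j : ℝ) + 1) * |g x' - g x| :=
          m2.trans (hg1.2.trans (by gcongr))
        rw [mul_comm] at h3
        exact le_of_mul_le_mul_left h3 hjr
      obtain ⟨y, hy, hy2⟩ := Par.step_real hb1 hb2 g1 (hc.trans g2) hrh hr
      have hz : ∃ z ∈ K, |z - x₀| ≤ p.r j₀ - p.r (j + 1) ∧ g z = y := by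
        rcases hy with rfl | rfl
        · exact ⟨x, hx, by linarith, rfl⟩
        · exact ⟨x', hx', by linarith, rfl⟩
      obtain ⟨z, hz1, hz2, hz3⟩ := hz
      have hps : ∀ e : Bool, p.ps (Function.update b j e) (j + 1) =
          p.ps b j + (if e then p.d j else 0) := by
        intro e
        rw [p.ps_succ]
        congr 1
        · apply p.ps_congr
          intro i hi
          rw [Function.update_of_ne hi.ne]
        · unfold Par.term
          rw [Function.update_self]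
      refine ⟨z, hz1, hz2, ?_⟩
      rcases hy2 with ⟨c1, c2⟩ | ⟨c1, c2⟩
      · refine ⟨Function.update b j false, ?_, ?_⟩
        · show p.ps (Function.update b j false) (j + 1) + p.r (j + 1) ≤ g z
          rw [hps, hz3]
          simpa using c1
        · show g z ≤ p.ps (Function.update b j false) (j + 1) + p.l (j + 1) - p.r (j + 1)
          rw [hps, hz3]
          simpa using c2
      · refine ⟨Function.update b j true, ?_, ?_⟩
        · show p.ps (Function.update b j true) (j + 1) + p.r (j + 1) ≤ g z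
          rw [hps, hz3]
          simpa [Par.d] using c1
        · show g z ≤ p.ps (Function.update b j true) (j + 1) + p.l (j + 1) - p.r (j + 1)
          rw [hps, hz3]
          simpa [Par.d] using c2
  choose x hxK hxr b hb1 hb2 using key
  obtain ⟨z, hz, φ, hφ, hlim⟩ := hA.cpt.tendsto_subseq hxK
  have hzr : |z - x₀| ≤ p.r j₀ := by
    have : Tendsto (fun n => |x (φ n) - x₀|) atTop (𝓝 |z - x₀|) := (hlim.sub_const x₀).abs
    refine le_of_tendsto this (Eventually.of_forall fun n => ?_)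
    have := hxr (φ n)
    have := p.r0 (j₀ + φ n)
    linarith
  have hgl : Tendsto (fun n => g (x (φ n))) atTop (𝓝 (g z)) := by
    rw [tendsto_iff_dist_tendsto_zero]
    have h3 : Tendsto (fun n => L * |x (φ n) - z|) atTop (𝓝 0) := by
      have := ((hlim.sub_const z).abs).const_mul L
      simpa using this
    refine squeeze_zero (fun n => dist_nonneg) (fun n => ?_) h3
    rw [Real.dist_eq]
    refine (hg _ (hxK _) _ hz ?_ hzr).1
    have := hxr (φ n)
    have := p.r0 (j₀ + φ n)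
    linarith
  have hlφ : Tendsto (fun n => p.l (j₀ + φ n)) atTop (𝓝 0) :=
    p.tendsto_l.comp (tendsto_atTop_mono (fun n => Nat.le_add_left _ _) hφ.tendsto_atTop)
  have hSl : Tendsto (fun n => p.S (b (φ n))) atTop (𝓝 (g z)) := by
    have h4 : Tendsto (fun n => p.S (b (φ n)) - g (x (φ n))) atTop (𝓝 0) := by
      refine squeeze_zero_norm (fun n => ?_) hlφ
      have a1 := p.ps_le_S (b (φ n)) (j₀ + φ n)
      have a2 := p.S_le (b (φ n)) (j₀ + φ n)
      have a3 := hb1 (φ n)
      have a4 := hb2 (φ n)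
      have a5 := p.r0 (j₀ + φ n)
      rw [Real.norm_eq_abs, abs_le]
      constructor <;> linarith
    have := h4.add hgl
    simpa using this
  exact ⟨z, hz, hzr, p.isCompact_C.isClosed.mem_of_tendsto hSl
    (Eventually.of_forall fun n => ⟨_, rfl⟩)⟩

end Pool.Agent.Q160.TD
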