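import Mathlib

/-!
Cantor sets of digit sums, adapted to a given perfect compact set.
-/

set_option autoImplicit false

namespace Pool.Agent.Q160.TD

open Set Filter Topology Metric

/-- uniform perfectness of perfect compact sets -/
lemma exists_rho {K : Set ℝ} (hc : IsCompact K)
    (hp : ∀ x ∈ K, ∀ ε : ℝ, 0 < ε → ∃ y ∈ K, y ≠ x ∧ |y - x| < ε) :
    ∃ ρ : ℝ → ℝ, ∀ s : ℝ, 0 < s → 0 < ρ s ∧ ∀ k ∈ K, ∃ k' ∈ K, |k' - k| ≤ s ∧ ρ s ≤ |k' - k| := by
  have main : ∀ s : ℝ, ∃ c : ℝ, 0 < s → 0 < c ∧ ∀ k ∈ K, ∃ k' ∈ K, |k' - k| ≤ s ∧ c ≤ |k' - k| := by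
    intro s
    by_cases hs : 0 < s
    swap
    · exact ⟨0, fun h => absurd h hs⟩
    by_contra hcon
    push Not at hcon
    have h1 : ∀ n : ℕ, ∃ k ∈ K, ∀ k' ∈ K, |k' - k| ≤ s → |k' - k| < 1 / ((n : ℝ) + 1) := by
      intro n
      obtain ⟨-, h⟩ := hcon (1 / ((n : ℝ) + 1))
      exact h (by positivity)
    choose k hk hk' using h1
    obtain ⟨x, hx, φ, hφ, hlim⟩ := hc.tendsto_subseq hk
    obtain ⟨y, hy, hyx, hys⟩ := hp x hx s hs
    have h2 : Tendsto (fun n => |y - k (φ n)|) atTop (𝓝 |y - x|) :=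
      (tendsto_const_nhds.sub hlim).abs
    have h3 : ∀ᶠ n in atTop, |y - k (φ n)| < s := h2.eventually (gt_mem_nhds hys)
    have h4 : Tendsto (fun n => 1 / ((φ n : ℝ) + 1)) atTop (𝓝 0) :=
      tendsto_one_div_add_atTop_nhds_zero_nat.comp hφ.tendsto_atTop
    have h5 : |y - x| ≤ 0 := by
      refine le_of_tendsto_of_tendsto h2 h4 ?_
      filter_upwards [h3] with n hn
      exact (hk' (φ n) y hy hn.le).le
    exact hyx (sub_eq_zero.1 (abs_nonpos_iff.1 h5))
  choose ρ hρ using main
  exact ⟨ρ, hρ⟩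

/-- lengths and room -/
structure Par where
  l : ℕ → ℝ
  r : ℕ → ℝ
  c : ℕ → ℝ
  l0 : ∀ j, 0 < l j
  r0 : ∀ j, 0 < r j
  half : ∀ j, l (j + 1) < l j / 2
  quarter : ∀ j, l j / 4 ≤ l (j + 1)
  rhalf : ∀ j, r (j + 1) ≤ r j / 2
  rl : ∀ j, r j ≤ l j / 16
  gap : ∀ j, (l j - 2 * l (j + 1)) + 2 * r (j + 1) ≤ c j

lemma exists_par (ρ : ℝ → ℝ) (hρ : ∀ s : ℝ, 0 < s → 0 < ρ s) :
    ∃ p : Par, ∀ j, p.c j = ρ (p.r j / (2 * ((j : ℝ) + 1))) / ((j : ℝ) + 1) := by
  let cc : ℕ → ℝ → ℝ := fun j r => ρ (r / (2 * ((j : ℝ) + 1))) / ((j : ℝ) + 1)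
  have hcc : ∀ j r, 0 < r → 0 < cc j r := by
    intro j r hr
    exact div_pos (hρ _ (by positivity)) (by positivity)
  let step : ℕ → ℝ × ℝ → ℝ × ℝ := fun j x =>
    let l' := (x.1 - min (cc j x.2 / 2) (x.1 / 2)) / 2
    (l', min (x.2 / 2) (min (cc j x.2 / 4) (l' / 16)))
  let sq : ℕ → ℝ × ℝ := fun n => Nat.rec (1, 1 / 16) (fun j x => step j x) n
  have hs : ∀ j, sq (j + 1) = step j (sq j) := fun j => rfl
  have h1 : ∀ j, (sq (j + 1)).1 = ((sq j).1 - min (cc j (sq j).2 / 2) ((sq j).1 / 2)) / 2 :=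
    fun j => rfl
  have h2 : ∀ j, (sq (j + 1)).2 = min ((sq j).2 / 2) (min (cc j (sq j).2 / 4)
      ((sq (j + 1)).1 / 16)) := fun j => rfl
  have hpos : ∀ j, 0 < (sq j).1 ∧ 0 < (sq j).2 := by
    intro j
    induction j with
    | zero => exact ⟨by show (0 : ℝ) < 1; norm_num, by show (0 : ℝ) < 1 / 16; norm_num⟩
    | succ j ih =>
      have a1 : 0 < (sq (j + 1)).1 := by
        rw [h1]
        have := min_le_right (cc j (sq j).2 / 2) ((sq j).1 / 2)
        linarith [ih.1]
      refine ⟨a1, ?_⟩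
      rw [h2]
      have := hcc j _ ih.2
      exact lt_min (by linarith [ih.2]) (lt_min (by linarith) (by linarith))
  refine ⟨⟨fun j => (sq j).1, fun j => (sq j).2, fun j => cc j (sq j).2, fun j => (hpos j).1,
    fun j => (hpos j).2, ?_, ?_, ?_, ?_, ?_⟩, fun j => rfl⟩
  · intro j
    show (sq (j + 1)).1 < (sq j).1 / 2
    rw [h1]
    have := hcc j _ (hpos j).2
    have h3 : 0 < min (cc j (sq j).2 / 2) ((sq j).1 / 2) :=
      lt_min (by linarith) (by linarith [(hpos j).1])
    linarith
  · intro j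
    show (sq j).1 / 4 ≤ (sq (j + 1)).1
    rw [h1]
    have := min_le_right (cc j (sq j).2 / 2) ((sq j).1 / 2)
    linarith
  · intro j
    show (sq (j + 1)).2 ≤ (sq j).2 / 2
    rw [h2]
    exact min_le_left _ _
  · intro j
    show (sq j).2 ≤ (sq j).1 / 16
    cases j with
    | zero => exact le_of_eq rfl
    | succ j =>
      conv_lhs => rw [h2]
      exact (min_le_right _ _).trans (min_le_right _ _)
  · intro j
    show ((sq j).1 - 2 * (sq (j + 1)).1) + 2 * (sq (j + 1)).2 ≤ cc j (sq j).2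
    have e : (sq j).1 - 2 * (sq (j + 1)).1 = min (cc j (sq j).2 / 2) ((sq j).1 / 2) := by
      rw [h1]; ring
    rw [e]
    have a1 := min_le_left (cc j (sq j).2 / 2) ((sq j).1 / 2)
    have a2 : (sq (j + 1)).2 ≤ cc j (sq j).2 / 4 := by
      conv_lhs => rw [h2]
      exact (min_le_right _ _).trans (min_le_left _ _)
    linarith

namespace Par

variable (p : Par)

/-- the steps -/
def d (j : ℕ) : ℝ := p.l j - p.l (j + 1)

lemma d_pos (j : ℕ) : 0 < p.d j := by
  unfold d
  linarith [p.half j, p.l0 j]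

lemma l_lt_d (j : ℕ) : p.l (j + 1) < p.d j := by
  unfold d
  linarith [p.half j]

lemma l_le (j : ℕ) : p.l j ≤ p.l 0 / 2 ^ j := by
  induction j with
  | zero => simp
  | succ j ih =>
    have := p.half j
    rw [pow_succ, ← div_div]
    linarith

lemma r_le (j : ℕ) : p.r j ≤ p.r 0 / 2 ^ j := by
  induction j with
  | zero => simp
  | succ j ih =>
    have := p.rhalf j
    rw [pow_succ, ← div_div]
    linarith

lemma tendsto_l : Tendsto p.l atTop (𝓝 0) := by
  refine squeeze_zero (fun j => (p.l0 j).le) p.l_le ?_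
  have := (tendsto_inv_atTop_zero.comp (tendsto_pow_atTop_atTop_of_one_lt
    (one_lt_two (α := ℝ)))).const_mul (p.l 0)
  simpa [div_eq_mul_inv] using this

lemma tendsto_r : Tendsto p.r atTop (𝓝 0) := by
  refine squeeze_zero (fun j => (p.r0 j).le) p.r_le ?_
  have := (tendsto_inv_atTop_zero.comp (tendsto_pow_atTop_atTop_of_one_lt
    (one_lt_two (α := ℝ)))).const_mul (p.r 0)
  simpa [div_eq_mul_inv] using this

lemma summable_d : Summable p.d := by
  refine summable_of_sum_range_le (c := p.l 0) (fun j => (p.d_pos j).le) ?_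
  intro n
  have : ∑ i ∈ Finset.range n, p.d i = p.l 0 - p.l n := by
    unfold d
    rw [Finset.sum_range_sub']
  rw [this]
  linarith [p.l0 n]

/-- the digit terms -/
def term (b : ℕ → Bool) (j : ℕ) : ℝ := if b j then p.d j else 0

lemma term_nonneg (b : ℕ → Bool) (j : ℕ) : 0 ≤ p.term b j := by
  unfold term
  split_ifs
  · exact (p.d_pos j).le
  · exact le_rfl

lemma term_le (b : ℕ → Bool) (j : ℕ) : p.term b j ≤ p.d j := by
  unfold term
  split_ifs
  · exact le_rfl
  · exact (p.d_pos j).le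

/-- partial sums -/
def ps (b : ℕ → Bool) (n : ℕ) : ℝ := ∑ j ∈ Finset.range n, p.term b j

lemma ps_succ (b : ℕ → Bool) (n : ℕ) : p.ps b (n + 1) = p.ps b n + p.term b n := by
  unfold ps
  rw [Finset.sum_range_succ]

lemma summable_term (b : ℕ → Bool) : Summable (p.term b) :=
  p.summable_d.of_nonneg_of_le (p.term_nonneg b) (p.term_le b)

/-- the digit sum -/
noncomputable def S (b : ℕ → Bool) : ℝ := ∑' j, p.term b j

lemma ps_le_S (b : ℕ → Bool) (n : ℕ) : p.ps b n ≤ p.S b :=
  (p.summable_term b).sum_le_tsum _ (fun j _ => p.term_nonneg b j)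

lemma ps_add_l_anti (b : ℕ → Bool) (n m : ℕ) : p.ps b (n + m) + p.l (n + m) ≤ p.ps b n + p.l n := by
  induction m with
  | zero => simp
  | succ m ih =>
    rw [← add_assoc, ps_succ]
    have := p.term_le b (n + m)
    unfold d at this
    linarith

lemma S_le (b : ℕ → Bool) (n : ℕ) : p.S b ≤ p.ps b n + p.l n := by
  have h : Tendsto (fun m => p.ps b m) atTop (𝓝 (p.S b)) :=
    (p.summable_term b).hasSum.tendsto_sum_nat
  refine le_of_tendsto h ?_
  filter_upwards [eventually_ge_atTop n] with m hm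
  obtain ⟨k, rfl⟩ := Nat.exists_eq_add_of_le hm
  have := p.ps_add_l_anti b n k
  linarith [p.l0 (n + k)]

lemma ps_congr {b b' : ℕ → Bool} {n : ℕ} (h : ∀ j < n, b j = b' j) : p.ps b n = p.ps b' n := by
  unfold ps term
  apply Finset.sum_congr rfl
  intro j hj
  rw [h j (Finset.mem_range.1 hj)]

lemma S_lt {b b' : ℕ → Bool} {n : ℕ} (h : ∀ j < n, b j = b' j) (hb : b n = true)
    (hb' : b' n = false) : p.S b' < p.S b := by
  have h1 := p.ps_le_S b (n + 1)
  have h2 := p.S_le b' (n + 1)
  rw [ps_succ] at h1 h2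
  have e1 : p.term b n = p.d n := by unfold term; rw [hb]; rfl
  have e2 : p.term b' n = 0 := by unfold term; rw [hb']; rfl
  rw [e1] at h1
  rw [e2] at h2
  have h3 := p.l_lt_d n
  have h4 := p.ps_congr h
  linarith

lemma S_injective : Function.Injective p.S := by
  intro b b' hS
  by_contra hne
  have hex : ∃ n, b n ≠ b' n := by
    by_contra h
    push Not at h
    exact hne (funext h)
  classical
  have hn := Nat.find_spec hex
  have hlt : ∀ j < Nat.find hex, b j = b' j := by
    intro j hj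
    by_contra h
    exact Nat.find_min hex hj h
  rcases Bool.eq_false_or_eq_true (b (Nat.find hex)) with h | h
  · have h' : b' (Nat.find hex) = false := by
      rcases Bool.eq_false_or_eq_true (b' (Nat.find hex)) with h2 | h2
      · rw [h, h2] at hn
        exact absurd rfl hn
      · exact h2
    exact absurd hS (p.S_lt hlt h h').ne'
  · have h' : b' (Nat.find hex) = true := by
      rcases Bool.eq_false_or_eq_true (b' (Nat.find hex)) with h2 | h2
      · exact h2
      · rw [h, h2] at hn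
        exact absurd rfl hn
    exact absurd hS (p.S_lt (fun j hj => (hlt j hj).symm) h' h).ne

lemma continuous_S : Continuous p.S := by
  refine continuous_tsum (u := p.d) ?_ p.summable_d ?_
  · intro j
    have : Continuous fun x : Bool => if x then p.d j else 0 := continuous_of_discreteTopology
    exact this.comp (continuous_apply j)
  · intro j b
    rw [Real.norm_of_nonneg (p.term_nonneg b j)]
    exact p.term_le b j

/-- the Cantor set -/
def C : Set ℝ := range p.S

lemma isCompact_C : IsCompact p.C := isCompact_range p.continuous_S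

lemma nonempty_C : p.C.Nonempty := range_nonempty _

lemma totallyDisconnected_C : IsTotallyDisconnected p.C := by
  have h : IsClosedEmbedding p.S := p.continuous_S.isClosedEmbedding p.S_injective
  exact h.isEmbedding.isTotallyDisconnected_range.2 inferInstance

lemma perfect_C : ∀ x ∈ p.C, ∀ ε : ℝ, 0 < ε → ∃ y ∈ p.C, y ≠ x ∧ |y - x| < ε := by
  rintro _ ⟨b, rfl⟩ ε hε
  obtain ⟨n, hn⟩ := (p.tendsto_l.eventually (gt_mem_nhds hε)).exists
  set b' := Function.update b n (!b n) with hb'
  have hne : b' ≠ b := by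
    intro h
    have := congrFun h n
    rw [hb', Function.update_self] at this
    cases hbn : b n <;> simp [hbn] at this
  have hag : p.ps b' n = p.ps b n := by
    apply p.ps_congr
    intro j hj
    rw [hb', Function.update_of_ne hj.ne]
  refine ⟨p.S b', ⟨b', rfl⟩, fun h => hne (p.S_injective h), ?_⟩
  have h1 := p.ps_le_S b' n
  have h2 := p.S_le b' n
  have h3 := p.ps_le_S b n
  have h4 := p.S_le b n
  rw [hag] at h1 h2
  rw [abs_lt]
  constructor <;> linarith

/-- deep points: infinitely often far from the ends of the component -/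
def Deep (q : ℝ) : Prop := ∃ b : ℕ → Bool, q = p.S b ∧ ∃ᶠ j in atTop, b j ≠ b (j + 1)

lemma Deep.mem {q : ℝ} (h : p.Deep q) : q ∈ p.C := by
  obtain ⟨b, rfl, -⟩ := h
  exact ⟨b, rfl⟩

lemma deep_room {b : ℕ → Bool} {j : ℕ} (h : b j ≠ b (j + 1)) :
    p.ps b j + 2 * p.r j ≤ p.S b ∧ p.S b ≤ p.ps b j + p.l j - 2 * p.r j := by
  have h1 := p.ps_le_S b (j + 2)
  have h2 := p.S_le b (j + 2)
  have e : p.ps b (j + 2) = p.ps b j + p.term b j + p.term b (j + 1) := by
    rw [ps_succ, ps_succ]
  rw [e] at h1 h2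
  have a1 := p.half j
  have a2 := p.half (j + 1)
  have a3 := p.quarter j
  have a5 := p.rl j
  have a6 := p.l0 j
  have a7 := p.l0 (j + 1)
  rcases Bool.eq_false_or_eq_true (b j) with hb | hb
  · have hb' : b (j + 1) = false := by
      rcases Bool.eq_false_or_eq_true (b (j + 1)) with h3 | h3
      · rw [hb, h3] at h
        exact absurd rfl h
      · exact h3
    have t1 : p.term b j = p.d j := by unfold term; rw [hb]; rfl
    have t2 : p.term b (j + 1) = 0 := by unfold term; rw [hb']; rfl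
    rw [t1, t2] at h1 h2
    unfold d at h1 h2
    constructor <;> linarith
  · have hb' : b (j + 1) = true := by
      rcases Bool.eq_false_or_eq_true (b (j + 1)) with h3 | h3
      · exact h3
      · rw [hb, h3] at h
        exact absurd rfl h
    have t1 : p.term b j = 0 := by unfold term; rw [hb]; rfl
    have t2 : p.term b (j + 1) = p.d (j + 1) := by unfold term; rw [hb']; rfl
    rw [t1, t2] at h1 h2
    unfold d at h1 h2
    constructor <;> linarith

lemma infinite_deep : {q | p.Deep q}.Infinite := by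
  let bb : ℕ → ℕ → Bool := fun i j => decide ((i + 2) ∣ j)
  have hinj : Function.Injective fun i => p.S (bb i) := by
    intro i i' h
    have h1 : bb i = bb i' := p.S_injective h
    have h2 := congrFun h1 (i + 2)
    have h3 := congrFun h1 (i' + 2)
    simp only [bb, dvd_refl, decide_true] at h2 h3
    have h4 : (i' + 2) ∣ (i + 2) := by simpa using h2.symm
    have h5 : (i + 2) ∣ (i' + 2) := by simpa using h3
    have := Nat.dvd_antisymm h5 h4
    omega
  refine Set.infinite_of_injective_forall_mem hinj ?_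
  intro i
  refine ⟨bb i, rfl, ?_⟩
  rw [frequently_atTop]
  intro N
  refine ⟨(i + 2) * N, ?_, ?_⟩
  · show N ≤ (i + 2) * N
    nlinarith
  · have h1 : bb i ((i + 2) * N) = true := by simp [bb]
    have h2 : bb i ((i + 2) * N + 1) = false := by
      simp only [bb, decide_eq_false_iff_not]
      intro h
      have h3 := (Nat.dvd_add_right (Dvd.intro N rfl)).1 h
      have := Nat.le_of_dvd one_pos h3
      omega
    rw [h1, h2]
    decide

/-- one step of the chase -/
lemma step_real {s l l' r r' x x' : ℝ} (h1 : s + r ≤ x) (h2 : x ≤ s + l - r)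
    (h3 : |x' - x| ≤ r / 2) (h4 : (l - 2 * l') + 2 * r' ≤ |x' - x|) (hr' : r' ≤ r / 2)
    (hr : 0 < r) :
    ∃ y, (y = x ∨ y = x') ∧ ((s + r' ≤ y ∧ y ≤ s + l' - r') ∨
      (s + (l - l') + r' ≤ y ∧ y ≤ s + (l - l') + l' - r')) := by
  rw [abs_le] at h3
  by_contra hcon
  push Not at hcon
  obtain ⟨a1, a2⟩ := hcon x (Or.inl rfl)
  obtain ⟨b1, b2⟩ := hcon x' (Or.inr rfl)
  have c1 := a1 (by linarith)
  have d1 := b1 (by linarith)
  have c2 : x < s + (l - l') + r' := by
    by_contra h
    push Not at h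
    linarith [a2 h]
  have d2 : x' < s + (l - l') + r' := by
    by_contra h
    push Not at h
    linarith [b2 h]
  have : |x' - x| < (l - 2 * l') + 2 * r' := by
    rw [abs_lt]
    constructor <;> linarith
  linarith

end Par

end Pool.Agent.Q160.TD
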