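import Pool.Agent.Q160.TD.Chase

/-!
Pin wiggling and tree embedding.
-/

set_option autoImplicit false

namespace Pool.Agent.Q160.TD

open Set Filter Topology Metric

/-- the Euclidean distance -/
noncomputable def ed (y z : ℝ × ℝ) : ℝ := √((y.1 - z.1) ^ 2 + (y.2 - z.2) ^ 2)

lemma ed_comm (y z : ℝ × ℝ) : ed y z = ed z y := by
  unfold ed
  congr 1
  ring

lemma mul_abs_bounds {A B X Y u v : ℝ} (h : A * Y = -(B * X)) (hu : 0 < u) (hv : 0 < v)
    (hX1 : u ≤ |X|) (hX2 : |X| ≤ 3 * u) (hY1 : v ≤ |Y|) (hY2 : |Y| ≤ 3 * v) :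
    |A| ≤ (3 * u / v) * |B| ∧ |B| ≤ (3 * v / u) * |A| := by
  have h1 : |A| * |Y| = |B| * |X| := by rw [← abs_mul, h, abs_neg, abs_mul]
  have hA := abs_nonneg A
  have hB := abs_nonneg B
  constructor
  · rw [div_mul_eq_mul_div, le_div_iff₀ hv]
    calc |A| * v ≤ |A| * |Y| := by gcongr
      _ = |B| * |X| := h1
      _ ≤ |B| * (3 * u) := by gcongr
      _ = 3 * u * |B| := by ring
  · rw [div_mul_eq_mul_div, le_div_iff₀ hu]
    calc |B| * u ≤ |B| * |X| := by gcongr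
      _ = |A| * |Y| := h1.symm
      _ ≤ |A| * (3 * v) := by gcongr
      _ = 3 * v * |A| := by ring

/-- pin wiggling -/
theorem wiggle {K : Set ℝ} {p : Par} (hA : Adapted K p) {P Q : ℝ × ℝ} (hQ1 : Q.1 ∈ K)
    (hQ2 : p.Deep Q.2) (h1 : P.1 ≠ Q.1) (h2 : P.2 ≠ Q.2) {ε : ℝ} (hε : 0 < ε) :
    ∃ δ : ℝ, 0 < δ ∧ ∀ a : ℝ × ℝ, |a.1 - P.1| < δ → |a.2 - P.2| < δ →
      ∀ t : ℝ, |t - ed P Q| < δ → ∃ b : ℝ × ℝ, b.1 ∈ K ∧ b.2 ∈ p.C ∧ |b.1 - Q.1| < ε ∧
        |b.2 - Q.2| < ε ∧ ed a b = t := by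
  obtain ⟨σ, hσ, hσv⟩ : ∃ σ : ℝ, σ ^ 2 = 1 ∧ Q.2 - P.2 = σ * |Q.2 - P.2| := by
    rcases le_total 0 (Q.2 - P.2) with h | h
    · exact ⟨1, by norm_num, by rw [abs_of_nonneg h, one_mul]⟩
    · exact ⟨-1, by norm_num, by rw [abs_of_nonpos h]; ring⟩
  have hs : |σ| = 1 := by
    have h3 : |σ| ^ 2 = 1 := by rw [sq_abs, hσ]
    exact (pow_eq_one_iff_of_nonneg (abs_nonneg σ) two_ne_zero).1 h3
  set u := |Q.1 - P.1| with hu
  set v := |Q.2 - P.2| with hv
  have hu0 : 0 < u := abs_pos.2 (sub_ne_zero.2 h1.symm)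
  have hv0 : 0 < v := abs_pos.2 (sub_ne_zero.2 h2.symm)
  set t₀ := ed P Q with ht₀
  have ht0' : t₀ = √(u ^ 2 + v ^ 2) := by
    rw [ht₀, ed, hu, hv, sq_abs, sq_abs]
    congr 1
    ring
  have ht0sq : t₀ ^ 2 = u ^ 2 + v ^ 2 := by
    rw [ht0', Real.sq_sqrt (by positivity)]
  have hut : u ≤ t₀ := by
    rw [ht0']
    apply Real.le_sqrt_of_sq_le
    nlinarith [sq_nonneg v]
  -- the function
  let F : ℝ × ℝ × ℝ × ℝ → ℝ := fun z => z.2.2.1 + σ * √(z.2.2.2 ^ 2 - (z.1 - z.2.1) ^ 2)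
  have hF : Continuous F := by
    simp only [F]
    fun_prop
  have hF0 : F (Q.1, P.1, P.2, t₀) = Q.2 := by
    have e : t₀ ^ 2 - (Q.1 - P.1) ^ 2 = v ^ 2 := by
      rw [ht0sq, hu, sq_abs]
      ring
    simp only [F]
    rw [e, Real.sqrt_sq hv0.le, ← hσv]
    ring
  obtain ⟨η₀, hη₀, hcont⟩ := Metric.continuous_iff.1 hF (Q.1, P.1, P.2, t₀) (min (v / 4) ε)
    (lt_min (by positivity) hε)
  set η := min η₀ (min (u / 4) (min (v / 4) ε)) with hη
  have hη0 : 0 < η := lt_min hη₀ (lt_min (by positivity) (lt_min (by positivity) hε))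
  have hηη₀ : η ≤ η₀ := min_le_left _ _
  have hηu : η ≤ u / 4 := (min_le_right _ _).trans (min_le_left _ _)
  have hηv : η ≤ v / 4 := (min_le_right _ _).trans ((min_le_right _ _).trans (min_le_left _ _))
  have hηε : η ≤ ε := (min_le_right _ _).trans ((min_le_right _ _).trans (min_le_right _ _))
  have hnear : ∀ x a1 a2 t : ℝ, |x - Q.1| < η → |a1 - P.1| < η → |a2 - P.2| < η →
      |t - t₀| < η → |F (x, a1, a2, t) - Q.2| < v / 4 ∧ |F (x, a1, a2, t) - Q.2| < ε := by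
    intro x a1 a2 t b1 b2 b3 b4
    have := hcont (x, a1, a2, t) (by
      simp only [Prod.dist_eq, Real.dist_eq, max_lt_iff]
      exact ⟨b1.trans_le hηη₀, b2.trans_le hηη₀, b3.trans_le hηη₀, b4.trans_le hηη₀⟩)
    rw [hF0, Real.dist_eq] at this
    exact ⟨this.trans_le (min_le_left _ _), this.trans_le (min_le_right _ _)⟩
  -- facts on the circle
  have hfacts : ∀ x a1 a2 t : ℝ, |x - Q.1| < η → |a1 - P.1| < η → |a2 - P.2| < η →
      |t - t₀| < η → (x - a1) ^ 2 + (F (x, a1, a2, t) - a2) ^ 2 = t ^ 2 ∧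
        ∃ w : ℝ, F (x, a1, a2, t) - a2 = σ * w ∧ v / 2 ≤ w ∧ w ≤ 3 * v / 2 := by
    intro x a1 a2 t b1 b2 b3 b4
    obtain ⟨c1, -⟩ := hnear x a1 a2 t b1 b2 b3 b4
    set w := √(t ^ 2 - (x - a1) ^ 2) with hw
    have e1 : F (x, a1, a2, t) - a2 = σ * w := by
      simp only [F, hw]
      ring
    have hw0 : 0 ≤ w := Real.sqrt_nonneg _
    have habs : |F (x, a1, a2, t) - a2| = w := by
      rw [e1, abs_mul, hs, one_mul, abs_of_nonneg hw0]
    have c2 : |(F (x, a1, a2, t) - a2) - (Q.2 - P.2)| ≤ v / 2 := by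
      have : (F (x, a1, a2, t) - a2) - (Q.2 - P.2) =
        (F (x, a1, a2, t) - Q.2) - (a2 - P.2) := by ring
      rw [this]
      have := abs_sub (F (x, a1, a2, t) - Q.2) (a2 - P.2)
      linarith
    have c3 := abs_sub_abs_le_abs_sub (F (x, a1, a2, t) - a2) (Q.2 - P.2)
    have c4 := abs_sub_abs_le_abs_sub (Q.2 - P.2) (F (x, a1, a2, t) - a2)
    rw [abs_sub_comm (Q.2 - P.2) (F (x, a1, a2, t) - a2)] at c4
    rw [habs, ← hv] at c3 c4
    have hwv : v / 2 ≤ w := by linarith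
    have hpos : 0 < t ^ 2 - (x - a1) ^ 2 := by
      apply Real.sqrt_pos.1
      rw [← hw]
      linarith
    refine ⟨?_, w, e1, hwv, by linarith⟩
    rw [e1, mul_pow, hσ, one_mul, hw, Real.sq_sqrt hpos.le]
    ring
  -- Lipschitz constant and stage
  set L := max (3 * u / v) (3 * v / u) with hL
  obtain ⟨b, hQb, hfr⟩ := hQ2
  have hev : ∀ᶠ j : ℕ in atTop, L ≤ (j : ℝ) + 1 ∧ p.r j < η := by
    have e1 : ∀ᶠ j : ℕ in atTop, L ≤ (j : ℝ) :=
      tendsto_natCast_atTop_atTop.eventually (eventually_ge_atTop L)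
    filter_upwards [e1, p.tendsto_r.eventually (gt_mem_nhds hη0)] with j hj1 hj2
    exact ⟨by linarith, hj2⟩
  obtain ⟨j, hbj, hLj, hrj⟩ := (hfr.and_eventually hev).exists
  obtain ⟨room1, room2⟩ := p.deep_room hbj
  rw [← hQb] at room1 room2
  obtain ⟨δ₀, hδ₀, hcont2⟩ := Metric.continuous_iff.1 hF (Q.1, P.1, P.2, t₀) (p.r j) (p.r0 j)
  refine ⟨min δ₀ η, lt_min hδ₀ hη0, ?_⟩
  intro a ha1 ha2 t ht
  have ha1' := ha1.trans_le (min_le_right δ₀ η)
  have ha2' := ha2.trans_le (min_le_right δ₀ η)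
  have ht' := ht.trans_le (min_le_right δ₀ η)
  have hstart : |F (Q.1, a.1, a.2, t) - Q.2| < p.r j := by
    have := hcont2 (Q.1, a.1, a.2, t) (by
      simp only [Prod.dist_eq, Real.dist_eq, max_lt_iff, sub_self, abs_zero]
      exact ⟨hδ₀, ha1.trans_le (min_le_left _ _), ha2.trans_le (min_le_left _ _),
        ht.trans_le (min_le_left _ _)⟩)
    rwa [hF0, Real.dist_eq] at this
  rw [abs_lt] at hstart
  have hbil : ∀ x ∈ K, ∀ y ∈ K, |x - Q.1| ≤ p.r j → |y - Q.1| ≤ p.r j →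
      |F (x, a.1, a.2, t) - F (y, a.1, a.2, t)| ≤ L * |x - y| ∧
        |x - y| ≤ L * |F (x, a.1, a.2, t) - F (y, a.1, a.2, t)| := by
    intro x _ y _ hx hy
    have hx' := hx.trans_lt hrj
    have hy' := hy.trans_lt hrj
    obtain ⟨fx, w, fw, w1, w2⟩ := hfacts x a.1 a.2 t hx' ha1' ha2' ht'
    obtain ⟨fy, w', fw', w1', w2'⟩ := hfacts y a.1 a.2 t hy' ha1' ha2' ht'
    set Fx := F (x, a.1, a.2, t) with hFx
    set Fy := F (y, a.1, a.2, t) with hFy
    have hY : |(Fx - a.2) + (Fy - a.2)| = w + w' := by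
      rw [fw, fw', ← mul_add, abs_mul, hs, one_mul, abs_of_nonneg (by linarith)]
    have hX : |((x - a.1) + (y - a.1)) - 2 * (Q.1 - P.1)| ≤ u := by
      have e : ((x - a.1) + (y - a.1)) - 2 * (Q.1 - P.1) =
        ((x - Q.1) + (y - Q.1)) - 2 * (a.1 - P.1) := by ring
      rw [e]
      have i1 := abs_sub ((x - Q.1) + (y - Q.1)) (2 * (a.1 - P.1))
      have i2 := abs_add_le (x - Q.1) (y - Q.1)
      rw [abs_mul, abs_two] at i1
      linarith
    have c3 := abs_sub_abs_le_abs_sub ((x - a.1) + (y - a.1)) (2 * (Q.1 - P.1))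
    have c4 := abs_sub_abs_le_abs_sub (2 * (Q.1 - P.1)) ((x - a.1) + (y - a.1))
    rw [abs_sub_comm (2 * (Q.1 - P.1)) ((x - a.1) + (y - a.1))] at c4
    rw [abs_mul, abs_two, ← hu] at c3 c4
    have hmul : (Fx - Fy) * ((Fx - a.2) + (Fy - a.2)) = -((x - y) * ((x - a.1) + (y - a.1))) := by
      linear_combination fx - fy
    have := mul_abs_bounds hmul hu0 hv0 (by linarith) (by linarith) (by rw [hY]; linarith)
      (by rw [hY]; linarith)
    constructor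
    · exact this.1.trans (by gcongr; exact le_max_left _ _)
    · exact this.2.trans (by gcongr; exact le_max_right _ _)
  obtain ⟨x, hxK, hxr, hxC⟩ := chase hA (g := fun x => F (x, a.1, a.2, t)) hLj hQ1
    (b₀ := b) (by show p.ps b j + p.r j ≤ F (Q.1, a.1, a.2, t); linarith)
    (by show F (Q.1, a.1, a.2, t) ≤ p.ps b j + p.l j - p.r j; linarith) hbil
  have hx' := hxr.trans_lt hrj
  refine ⟨(x, F (x, a.1, a.2, t)), hxK, hxC, hx'.trans_le hηε,
    (hnear x a.1 a.2 t hx' ha1' ha2' ht').2, ?_⟩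
  obtain ⟨fx, -⟩ := hfacts x a.1 a.2 t hx' ha1' ha2' ht'
  have ht1 : 0 ≤ t := by
    rw [abs_lt] at ht'
    linarith
  rw [ed]
  have e : (a.1 - x) ^ 2 + (a.2 - F (x, a.1, a.2, t)) ^ 2 = t ^ 2 := by
    rw [← fx]; ring
  show √((a.1 - x) ^ 2 + (a.2 - F (x, a.1, a.2, t)) ^ 2) = t
  rw [e, Real.sqrt_sq ht1]

/-- embedding of trees -/
theorem tree_embed {K : Set ℝ} {p : Par} (hA : Adapted K p) (n : ℕ) :
    ∀ (V : Type) [Fintype V] (G : SimpleGraph V), G.IsTree → Fintype.card V = n →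
      ∀ (v₀ : V) (P : V → ℝ × ℝ), (∀ v, (P v).1 ∈ K ∧ p.Deep (P v).2) →
      (∀ v w, v ≠ w → (P v).1 ≠ (P w).1 ∧ (P v).2 ≠ (P w).2) →
      ∀ ε : ℝ, 0 < ε → ∃ δ : ℝ, 0 < δ ∧ ∀ t : V → V → ℝ, (∀ v w, t v w = t w v) →
        (∀ v w, G.Adj v w → |t v w - ed (P v) (P w)| < δ) →
        ∃ y : V → ℝ × ℝ, y v₀ = P v₀ ∧ (∀ v, (y v).1 ∈ K ∧ (y v).2 ∈ p.C) ∧
          (∀ v, |(y v).1 - (P v).1| < ε ∧ |(y v).2 - (P v).2| < ε) ∧
          ∀ v w, G.Adj v w → ed (y v) (y w) = t v w := by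
  classical
  induction n with
  | zero =>
    intro V _ G _ hcard v₀
    exact absurd hcard (Fintype.card_pos_iff.2 ⟨v₀⟩).ne'
  | succ n ih =>
    intro V _ G hG hcard v₀ P hP hsep ε hε
    by_cases hV : Nontrivial V
    swap
    · rw [not_nontrivial_iff_subsingleton] at hV
      refine ⟨1, one_pos, fun t _ _ => ⟨P, rfl, fun v => ⟨(hP v).1, (hP v).2.mem⟩, ?_, ?_⟩⟩
      · intro v
        simpa using hε
      · intro v w hvw
        exact absurd (Subsingleton.elim v w) hvw.ne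
    obtain ⟨u₁, u₂, hu12, hd1, hd2⟩ := hG.exists_ne_and_degree_eq_one
    obtain ⟨u, hu0, hdu⟩ : ∃ u, u ≠ v₀ ∧ G.degree u = 1 := by
      by_cases h : u₁ = v₀
      · exact ⟨u₂, fun h2 => hu12 (h.trans h2.symm), hd2⟩
      · exact ⟨u₁, h, hd1⟩
    obtain ⟨w, hw, hwu⟩ := SimpleGraph.degree_eq_one_iff_existsUnique_adj.1 hdu
    have hG' : (G.induce {u}ᶜ).IsTree :=
      ⟨hG.connected.induce_compl_singleton_of_degree_eq_one hdu, hG.isAcyclic.induce _⟩
    have hwne : w ≠ u := hw.ne'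
    obtain ⟨δ₁, hδ₁, wig⟩ := wiggle hA (P := P w) (Q := P u) (hP u).1 (hP u).2
      (hsep w u hwne).1 (hsep w u hwne).2 hε
    have hcard' : Fintype.card ({u}ᶜ : Set V) = n := by
      rw [Fintype.card_compl_set, hcard, Fintype.card_unique]
      rfl
    obtain ⟨δ₂, hδ₂, main⟩ := ih ({u}ᶜ : Set V) (G.induce {u}ᶜ) hG' hcard' ⟨v₀, hu0.symm⟩
      (fun v => P v) (fun v => hP v) (fun v w h => hsep v w fun h2 => h (Subtype.ext h2))
      (min ε δ₁) (lt_min hε hδ₁)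
    refine ⟨min δ₁ δ₂, lt_min hδ₁ hδ₂, ?_⟩
    intro t ht htd
    obtain ⟨y, y1, y2, y3, y4⟩ := main (fun v w => t v w) (fun v w => ht v w)
      (fun v w h => (htd v w h).trans_le (min_le_right _ _))
    obtain ⟨b, b1, b2, b3, b4, b5⟩ := wig (y ⟨w, hwne⟩)
      ((y3 ⟨w, hwne⟩).1.trans_le (min_le_right _ _))
      ((y3 ⟨w, hwne⟩).2.trans_le (min_le_right _ _)) (t w u)
      ((htd w u hw.symm).trans_le (min_le_left _ _))
    refine ⟨fun v => if h : v = u then b else y ⟨v, h⟩, ?_, ?_, ?_, ?_⟩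
    · simp only [hu0.symm, dif_neg, not_false_eq_true]
      exact y1
    · intro v
      by_cases h : v = u
      · simp only [h, dif_pos]
        exact ⟨b1, b2⟩
      · simp only [h, dif_neg, not_false_eq_true]
        exact y2 _
    · intro v
      by_cases h : v = u
      · simp only [h, dif_pos]
        exact ⟨b3, b4⟩
      · simp only [h, dif_neg, not_false_eq_true]
        exact ⟨(y3 _).1.trans_le (min_le_left _ _), (y3 _).2.trans_le (min_le_left _ _)⟩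
    · intro v v' hvv
      by_cases h : v = u
      · have h' : v' = w := hwu v' (h ▸ hvv)
        have h'' : ¬ v' = u := h' ▸ hwne
        simp only [h, dif_pos, h'', dif_neg, not_false_eq_true]
        subst h'
        rw [ed_comm, b5, ht]
      · by_cases h' : v' = u
        · have h3 : v = w := hwu v (h' ▸ hvv.symm)
          simp only [h', dif_pos, h, dif_neg, not_false_eq_true]
          subst h3
          exact b5
        · simp only [h', h, dif_neg, not_false_eq_true]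
          exact y4 ⟨v, h⟩ ⟨v', h'⟩ hvv

end Pool.Agent.Q160.TD
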